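import Pool.Agent.helper91.SI.Spec5

set_option autoImplicit false

namespace Pool.Agent.helper91.SI

open Pool.Agent.helper20.IG (IsIndepDom IsISet iGraph)

private theorem CNB_noC4 {V W : Type} (G : SimpleGraph V) (H : SimpleGraph W) (e : G ≃g H)
    (h : NoC4 H) : NoC4 G := by
  intro a b c d h1 h2 h3 h4 hac hbd
  exact h (e a) (e b) (e c) (e d) (e.map_rel_iff.2 h1) (e.map_rel_iff.2 h2) (e.map_rel_iff.2 h3)
    (e.map_rel_iff.2 h4) (fun q => hac (e.injective q)) (fun q => hbd (e.injective q))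

private theorem CNB_clo {V : Type} (G : SimpleGraph V) (s : V) : Clo G {z | G.Reachable s z} := by
  intro u v h
  constructor
  · intro hu
    exact SimpleGraph.Reachable.trans hu h.reachable
  · intro hv
    exact SimpleGraph.Reachable.trans hv h.symm.reachable

private theorem CNB_walk {V : Type} (G : SimpleGraph V) (s u v : V) (p : G.Walk u v)
    (hu : G.Reachable s u) (hv : G.Reachable s v) :
    (G.induce {z | G.Reachable s z}).Reachable ⟨u, hu⟩ ⟨v, hv⟩ := by
  induction p with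
  | nil => exact SimpleGraph.Reachable.refl _
  | @cons a b c hab q ih =>
    have hb : G.Reachable s b := hu.trans hab.reachable
    have h1 : (G.induce {z | G.Reachable s z}).Adj ⟨a, hu⟩ ⟨b, hb⟩ := hab
    exact h1.reachable.trans (ih hb hv)

private theorem CNB_conn {V : Type} (G : SimpleGraph V) (s : V) :
    (G.induce {z | G.Reachable s z}).Preconnected := by
  rintro ⟨u, hu⟩ ⟨v, hv⟩
  obtain ⟨p⟩ := (SimpleGraph.Reachable.symm hu).trans hv
  exact CNB_walk G s u v p hu hv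

private theorem CNB_lift {V : Type} (G : SimpleGraph V) (A : Set V) (x y : A)
    (h : (G.induce A).Reachable x y) : G.Reachable x.1 y.1 := by
  obtain ⟨p⟩ := h
  induction p with
  | nil => exact SimpleGraph.Reachable.refl _
  | cons hab q ih =>
    have h1 : G.Adj _ _ := hab
    exact h1.reachable.trans ih

private theorem CNB_pre {V W : Type} (G : SimpleGraph V) (H : SimpleGraph W) (e : G ≃g H)
    (h : H.Preconnected) : G.Preconnected := by
  intro u v
  obtain ⟨p⟩ := h (e u) (e v)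
  have h2 : G.Reachable (e.symm (e u)) (e.symm (e v)) := ⟨p.map e.symm.toHom⟩
  rwa [RelIso.symm_apply_apply, RelIso.symm_apply_apply] at h2

private theorem CNB_map {V W : Type} (G : SimpleGraph V) (H : SimpleGraph W) (e : G ≃g H) (x y : V) :
    G.Reachable x y ↔ H.Reachable (e x) (e y) := by
  constructor
  · rintro ⟨p⟩
    exact ⟨p.map e.toHom⟩
  · rintro ⟨p⟩
    have h2 : G.Reachable (e.symm (e x)) (e.symm (e y)) := ⟨p.map e.symm.toHom⟩
    rwa [RelIso.symm_apply_apply, RelIso.symm_apply_apply] at h2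

private def CNB_iso {V W : Type} (G : SimpleGraph V) (H : SimpleGraph W) (e : G ≃g H) (A : Set V) (B : Set W)
    (h : ∀ x, x ∈ A ↔ e x ∈ B) : G.induce A ≃g H.induce B where
  toEquiv := e.toEquiv.subtypeEquiv h
  map_rel_iff' := by
    intro x y
    exact e.map_rel_iff

theorem CNB (hIAD : IAD_stmt) (hTRF : TRF_stmt) (hEMB : EMB_stmt) (hONE : ONE_stmt)
    (hCLS : CLS_stmt) (hCNA : CNA_stmt) : CNB_stmt := by
  intro V _ _ G n3 n4 n6 nT e X s v hsl b
  by_contra hb
  have hI4 : NoC4 (iGraph G) := CNB_noC4 _ _ e n4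
  have hcK := CNB_clo G s
  have hcL := CNB_clo G b
  obtain ⟨eA⟩ := hCNA V G n3 n4 n6 nT e X s v hsl
  have hsK : s ∈ {z | G.Reachable s z} := SimpleGraph.Reachable.refl s
  have hvK : v ∈ {z | G.Reachable s z} := hsl.2.2.2.1.reachable
  obtain ⟨eD⟩ := hEMB V G {z | G.Reachable s z} (e.symm b) hcK
  have hDpre : ((iGraph G).induce {Y | ∀ z, z ∉ {z | G.Reachable s z} →
      (z ∈ Y.1 ↔ z ∈ (e.symm b).1)}).Preconnected :=
    CNB_pre _ _ (eD.symm.trans eA) (CNB_conn G s)
  have hD : ∀ Y : {S : Finset V // IsISet G S}, Y ∈ {Y : {S : Finset V // IsISet G S} |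
      ∀ z, z ∉ {z | G.Reachable s z} → (z ∈ Y.1 ↔ z ∈ (e.symm b).1)} ↔
      e Y ∈ {z | G.Reachable b z} := by
    intro Y
    have h1 : e Y ∈ {z | G.Reachable b z} ↔ (iGraph G).Reachable (e.symm b) Y := by
      rw [CNB_map (iGraph G) G e, RelIso.apply_symm_apply]
      rfl
    rw [h1]
    constructor
    · intro hY
      have hb0 : e.symm b ∈ {Y : {S : Finset V // IsISet G S} |
          ∀ z, z ∉ {z | G.Reachable s z} → (z ∈ Y.1 ↔ z ∈ (e.symm b).1)} := fun z _ => Iff.rfl
      exact CNB_lift (iGraph G) _ ⟨e.symm b, hb0⟩ ⟨Y, hY⟩ (hDpre _ _)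
    · intro hY z hz
      exact (hCLS V G {z | G.Reachable s z} X s v n3 hI4 hcK hsl hsK (e.symm b) Y hY z hz).symm
  have eL : G.induce {z | G.Reachable b z} ≃g G.induce {z | G.Reachable s z} :=
    ((CNB_iso (iGraph G) G e _ _ hD).symm.trans eD.symm).trans eA
  obtain ⟨eI⟩ := hTRF _ _ (G.induce {z | G.Reachable b z}) (G.induce {z | G.Reachable s z}) ⟨eL⟩
  obtain ⟨eX⟩ := hEMB V G {z | G.Reachable b z} ⟨X, hsl.1⟩ hcL
  have hadj : (G.induce {z | G.Reachable s z}).Adj ⟨s, hsK⟩ ⟨v, hvK⟩ := hsl.2.2.2.1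
  have hadj2 := (eA.symm.trans (eI.symm.trans eX)).map_rel_iff.2 hadj
  generalize (eA.symm.trans (eI.symm.trans eX)) ⟨s, hsK⟩ = Y at hadj2
  generalize (eA.symm.trans (eI.symm.trans eX)) ⟨v, hvK⟩ = Y' at hadj2
  have hadj3 : (iGraph G).Adj Y.1 Y'.1 := hadj2
  obtain ⟨t, w, hsl2, hY'⟩ := (hIAD V G Y.1 Y'.1).1 hadj3
  have htL : t ∈ {z | G.Reachable b z} := by
    by_contra ht
    have h1 := (Y.2 t ht).1 hsl2.2.1
    have h2 := (Y'.2 t ht).2 h1
    rw [hY', Finset.mem_insert] at h2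
    rcases h2 with h2 | h2
    · rw [h2] at hsl2
      exact hsl2.2.2.1 hsl2.2.1
    · exact Finset.notMem_erase t _ h2
  have htK := hONE V G {z | G.Reachable s z} X Y.1.1 s v t w n3 hI4 hcK hsl hsl2 hsK
  exact hb (SimpleGraph.Reachable.trans htK (SimpleGraph.Reachable.symm htL))

end Pool.Agent.helper91.SI
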