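import Pool.Agent.helper91.SI.Spec

/-!
# Row `PA1` (MP_ee5996_co): paths with `3k+1 ≥ 7` vertices
-/

set_option autoImplicit false

namespace Pool.Agent.helper91.SI

open Pool.Agent.helper20.IG (IsIndepDom IsISet iGraph)

/-- The four sets: `e` moves the token `0` to `1`, `f` moves the token `n-1` to `n-2`. -/
def PA1_T (n : ℕ) (e f : Bool) : Finset (Fin n) :=
  Finset.univ.filter fun x =>
    (x.val % 3 = 0 ∧ (e = true → x.val ≠ 0) ∧ (f = true → x.val + 1 ≠ n)) ∨
      (e = true ∧ x.val = 1) ∨ (f = true ∧ x.val + 2 = n)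

theorem PA1_mem (n : ℕ) (e f : Bool) (x : Fin n) : x ∈ PA1_T n e f ↔
    (x.val % 3 = 0 ∧ (e = true → x.val ≠ 0) ∧ (f = true → x.val + 1 ≠ n)) ∨
      (e = true ∧ x.val = 1) ∨ (f = true ∧ x.val + 2 = n) := by
  simp [PA1_T]

theorem PA1_ind (n : ℕ) (e f : Bool) (h7 : 7 ≤ n) (h1 : n % 3 = 1) :
    IsIndepDom (SimpleGraph.pathGraph n) (PA1_T n e f) := by
  constructor
  · intro u hu v hv h
    rw [PA1_mem] at hu hv
    rw [SimpleGraph.pathGraph_adj] at h
    have := u.2
    have := v.2
    cases e <;> cases f <;> simp at hu hv <;> omega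
  · intro v hv
    rw [PA1_mem] at hv
    have hlt := v.2
    have key : ∀ w : ℕ, ∀ hw : w < n, (v.val + 1 = w ∨ w + 1 = v.val) →
        ((w % 3 = 0 ∧ (e = true → w ≠ 0) ∧ (f = true → w + 1 ≠ n)) ∨
          (e = true ∧ w = 1) ∨ (f = true ∧ w + 2 = n)) →
        ∃ u ∈ PA1_T n e f, (SimpleGraph.pathGraph n).Adj u v := by
      intro w hw h2 h3
      refine ⟨⟨w, hw⟩, (PA1_mem _ _ _ _).2 h3, ?_⟩
      rw [SimpleGraph.pathGraph_adj]
      rcases h2 with h2 | h2
      · exact Or.inr h2
      · exact Or.inl h2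
    have h3 : v.val % 3 = 0 ∨ v.val % 3 = 1 ∨ v.val % 3 = 2 := by omega
    rcases h3 with h3 | h3 | h3
    · by_cases h0 : v.val = 0
      · refine key 1 (by omega) (Or.inl (by omega)) (Or.inr (Or.inl ⟨?_, rfl⟩))
        by_contra he
        apply hv
        refine Or.inl ⟨h3, fun h => absurd h he, fun _ => by omega⟩
      · refine key (n - 2) (by omega) (Or.inr ?_) (Or.inr (Or.inr ⟨?_, by omega⟩))
        · by_contra hne
          apply hv
          refine Or.inl ⟨h3, fun _ => h0, fun _ => by omega⟩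
        · by_contra hf
          apply hv
          refine Or.inl ⟨h3, fun _ => h0, fun h => absurd h hf⟩
    · refine key (v.val - 1) (by omega) (Or.inr (by omega)) (Or.inl ⟨by omega, ?_, fun _ => by omega⟩)
      intro he h0
      apply hv
      exact Or.inr (Or.inl ⟨he, by omega⟩)
    · refine key (v.val + 1) (by omega) (Or.inl rfl) (Or.inl ⟨by omega, fun _ => by omega, ?_⟩)
      intro hf h0
      apply hv
      exact Or.inr (Or.inr ⟨hf, by omega⟩)

theorem PA1_card (n : ℕ) (e f : Bool) (h7 : 7 ≤ n) (h1 : n % 3 = 1) :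
    (PA1_T n e f).card ≤ n / 3 + 1 := by
  have h : (PA1_T n e f).card ≤ (Finset.range (n / 3 + 1)).card := by
    refine Finset.card_le_card_of_injOn (fun x => (x.val + 1) / 3) ?_ ?_
    · intro x hx
      have := x.2
      simp only [Finset.coe_range, Set.mem_Iio]
      omega
    · intro x hx y hy hxy
      rw [Finset.mem_coe, PA1_mem] at hx hy
      have := x.2
      have := y.2
      simp only at hxy
      apply Fin.ext
      cases e <;> cases f <;> simp at hx hy <;> omega
  rwa [Finset.card_range] at h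

theorem PA1_iset (hLBD : LBD_stmt) (hPTT : PTT_stmt) (n : ℕ) (e f : Bool) (h7 : 7 ≤ n)
    (h1 : n % 3 = 1) : IsISet (SimpleGraph.pathGraph n) (PA1_T n e f) := by
  refine ⟨PA1_ind n e f h7 h1, ?_⟩
  intro T hT
  have h2 := hLBD (Fin n) (SimpleGraph.pathGraph n) (hPTT n).1 T hT
  rw [Fintype.card_fin] at h2
  have h3 := PA1_card n e f h7 h1
  omega

theorem PA1_e (n : ℕ) (f : Bool) (h7 : 7 ≤ n) (h1 : n % 3 = 1) :
    PA1_T n true f = insert (⟨1, by omega⟩ : Fin n) ((PA1_T n false f).erase ⟨0, by omega⟩) := by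
  ext x
  have := x.2
  simp only [Finset.mem_insert, Finset.mem_erase, PA1_mem, ne_eq, Fin.ext_iff]
  cases f <;> simp <;> omega

theorem PA1_f (n : ℕ) (e : Bool) (h7 : 7 ≤ n) (h1 : n % 3 = 1) :
    PA1_T n e true =
      insert (⟨n - 2, by omega⟩ : Fin n) ((PA1_T n e false).erase ⟨n - 1, by omega⟩) := by
  ext x
  have := x.2
  simp only [Finset.mem_insert, Finset.mem_erase, PA1_mem, ne_eq, Fin.ext_iff]
  cases e <;> simp <;> omega

theorem PA1 (hLBD : LBD_stmt) (hPTT : PTT_stmt) : PA1_stmt := by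
  intro n h7 h1 hno
  let X : Bool → Bool → {S : Finset (Fin n) // IsISet (SimpleGraph.pathGraph n) S} :=
    fun e f => ⟨PA1_T n e f, PA1_iset hLBD hPTT n e f h7 h1⟩
  have m1 : ∀ e f, (⟨1, by omega⟩ : Fin n) ∈ PA1_T n e f ↔ e = true := by
    intro e f
    rw [PA1_mem]
    cases e <;> cases f <;> simp <;> omega
  have m2 : ∀ e f, (⟨n - 2, by omega⟩ : Fin n) ∈ PA1_T n e f ↔ f = true := by
    intro e f
    rw [PA1_mem]
    cases e <;> cases f <;> simp <;> omega
  have ne1 : ∀ f f', X false f ≠ X true f' := by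
    intro f f' h
    have h2 : PA1_T n false f = PA1_T n true f' := congrArg Subtype.val h
    have h3 := (m1 true f').2 rfl
    rw [← h2] at h3
    exact absurd ((m1 false f).1 h3) (by simp)
  have ne2 : ∀ e e', X e false ≠ X e' true := by
    intro e e' h
    have h2 : PA1_T n e false = PA1_T n e' true := congrArg Subtype.val h
    have h3 := (m2 e' true).2 rfl
    rw [← h2] at h3
    exact absurd ((m2 e false).1 h3) (by simp)
  have ae : ∀ f, (iGraph (SimpleGraph.pathGraph n)).Adj (X false f) (X true f) := by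
    intro f
    refine ⟨ne1 f f, ⟨0, by omega⟩, ?_, ⟨1, by omega⟩, (m1 true f).2 rfl, ?_, PA1_e n f h7 h1⟩
    · change (⟨0, by omega⟩ : Fin n) ∈ PA1_T n false f
      rw [PA1_mem]
      cases f <;> simp <;> omega
    · rw [SimpleGraph.pathGraph_adj]
      exact Or.inl rfl
  have af : ∀ e, (iGraph (SimpleGraph.pathGraph n)).Adj (X e false) (X e true) := by
    intro e
    refine ⟨ne2 e e, ⟨n - 1, by omega⟩, ?_, ⟨n - 2, by omega⟩, (m2 e true).2 rfl, ?_,
      PA1_f n e h7 h1⟩
    · change (⟨n - 1, by omega⟩ : Fin n) ∈ PA1_T n e false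
      rw [PA1_mem]
      cases e <;> simp <;> omega
    · rw [SimpleGraph.pathGraph_adj]
      exact Or.inr (by simp; omega)
  exact hno (X false false) (X true false) (X true true) (X false true) (ae false) (af true)
    (ae true).symm (af false).symm (ne1 _ _) (ne1 _ _).symm

end Pool.Agent.helper91.SI
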